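import Mathlib

set_option autoImplicit false

open MeasureTheory

namespace Pool.Agent.H7.Lag

/-- The weight `P(x) = exp(-∑ x_j) ∏_{k<j} (x_j - x_k)²` (the product is empty for `n = 1`). -/
noncomputable def P (n : ℕ) (x : Fin n → ℝ) : ℝ :=
  Real.exp (-∑ j, x j) * ∏ k : Fin n, ∏ j ∈ Finset.Ioi k, (x j - x k) ^ 2

/-- `F(t) = ∫_{[0,∞)^n} P(x) ∏ (x_j + t)^{-1/2} dx`. -/
noncomputable def F (n : ℕ) (t : ℝ) : ℝ :=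
  ∫ x in {x : Fin n → ℝ | ∀ j, 0 ≤ x j}, P n x * ∏ j, (x j + t) ^ (-(1 / 2) : ℝ)

/-- `G(t) = ∫_{[0,∞)^n} P(x) ∏ (x_j + t)^{1/2} dx`. -/
noncomputable def G (n : ℕ) (t : ℝ) : ℝ :=
  ∫ x in {x : Fin n → ℝ | ∀ j, 0 ≤ x j}, P n x * ∏ j, (x j + t) ^ (1 / 2 : ℝ)

end Pool.Agent.H7.Lag
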