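import Pool.Agent.H7.Lag.Symm
import Pool.Agent.H7.Lag.Defs

set_option autoImplicit false

open MeasureTheory Set
open scoped ENNReal

namespace Pool.Agent.H7.Lag

/-- open orthant -/
def O (n : ℕ) : Set (Fin n → ℝ) := {x | ∀ j, 0 < x j}

/-- open positive chamber -/
def D (n : ℕ) : Set (Fin n → ℝ) := {x | StrictMono x ∧ ∀ j, 0 < x j}

lemma O_open (n : ℕ) : IsOpen (O n) := by
  have : O n = ⋂ j, {x : Fin n → ℝ | 0 < x j} := by ext x; simp [O]
  rw [this]
  exact isOpen_iInter_of_finite fun j => isOpen_lt continuous_const (continuous_apply j)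

lemma O_meas (n : ℕ) : MeasurableSet (O n) := (O_open n).measurableSet

lemma D_open (n : ℕ) : IsOpen (D n) := by
  have : D n = (⋂ i : Fin n, ⋂ j : Fin n, ⋂ _ : i < j, {x : Fin n → ℝ | x i < x j}) ∩ O n := by
    ext x
    simp only [D, O, mem_ofPred_eq, mem_inter_iff, mem_iInter]
    exact ⟨fun h => ⟨fun i j hij => h.1 hij, h.2⟩, fun h => ⟨fun i j hij => h.1 i j hij, h.2⟩⟩
  rw [this]
  refine IsOpen.inter ?_ (O_open n)
  exact isOpen_iInter_of_finite fun i => isOpen_iInter_of_finite fun j =>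
    isOpen_iInter_of_finite fun _ => isOpen_lt (continuous_apply _) (continuous_apply _)

lemma D_meas (n : ℕ) : MeasurableSet (D n) := (D_open n).measurableSet

lemma D_sub (n : ℕ) : D n ⊆ O n := fun _ h => h.2

lemma D_sup {n : ℕ} {x y : Fin n → ℝ} (hx : x ∈ D n) (hy : y ∈ D n) : x ⊔ y ∈ D n :=
  ⟨fun _ _ hij => max_lt_max (hx.1 hij) (hy.1 hij), fun j => lt_max_of_lt_left (hx.2 j)⟩

lemma D_inf {n : ℕ} {x y : Fin n → ℝ} (hx : x ∈ D n) (hy : y ∈ D n) : x ⊓ y ∈ D n :=
  ⟨fun _ _ hij => min_lt_min (hx.1 hij) (hy.1 hij), fun j => lt_min (hx.2 j) (hy.2 j)⟩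

/-- the closed orthant is a.e. equal to the open one -/
lemma orthant_ae (n : ℕ) : ({x : Fin n → ℝ | ∀ j, 0 ≤ x j} : Set (Fin n → ℝ)) =ᵐ[volume] O n := by
  have h : ∀ j : Fin n, ∀ᵐ x : Fin n → ℝ, x j ≠ 0 := by
    intro j
    let s : Submodule ℝ (Fin n → ℝ) := LinearMap.ker (LinearMap.proj j : (Fin n → ℝ) →ₗ[ℝ] ℝ)
    have hs : s ≠ ⊤ := by
      intro htop
      have hmem : (Pi.single j (1 : ℝ) : Fin n → ℝ) ∈ s := by rw [htop]; trivial
      simp only [s, LinearMap.mem_ker, LinearMap.proj_apply, Pi.single_eq_same] at hmem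
      norm_num at hmem
    have h0 := Measure.addHaar_submodule (volume : Measure (Fin n → ℝ)) s hs
    rw [ae_iff]
    refine measure_mono_null ?_ h0
    intro x hx
    simp only [ne_eq, not_not, mem_ofPred_eq] at hx
    simp [s, hx]
  have h2 : ∀ᵐ x : Fin n → ℝ, ∀ j, x j ≠ 0 := ae_all_iff.2 h
  filter_upwards [h2] with x hx
  apply propext
  constructor
  · intro h3 j
    exact lt_of_le_of_ne (h3 j) (hx j).symm
  · intro h3 j
    exact (h3 j).le

lemma F_eq (n : ℕ) (t : ℝ) : F n t = ∫ x in O n, P n x * ∏ j, (x j + t) ^ (-(1 / 2) : ℝ) :=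
  setIntegral_congr_set (orthant_ae n)

lemma G_eq (n : ℕ) (t : ℝ) : G n t = ∫ x in O n, P n x * ∏ j, (x j + t) ^ (1 / 2 : ℝ) :=
  setIntegral_congr_set (orthant_ae n)

lemma P_cont (n : ℕ) : Continuous (P n) := by
  unfold P
  fun_prop

lemma P_nonneg (n : ℕ) (x : Fin n → ℝ) : 0 ≤ P n x := by
  unfold P
  exact mul_nonneg (Real.exp_pos _).le (Finset.prod_nonneg fun k _ =>
    Finset.prod_nonneg fun j _ => sq_nonneg _)

lemma P_pos {n : ℕ} {x : Fin n → ℝ} (hx : x ∈ D n) : 0 < P n x := by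
  unfold P
  refine mul_pos (Real.exp_pos _) (Finset.prod_pos fun k _ => Finset.prod_pos fun j hj => ?_)
  have := hx.1 (Finset.mem_Ioi.1 hj)
  exact pow_pos (sub_pos.2 this) 2

lemma P_symm (n : ℕ) (σ : Equiv.Perm (Fin n)) (x : Fin n → ℝ) : P n (x ∘ σ) = P n x := by
  unfold P
  have h1 : ∑ j, (x ∘ σ) j = ∑ j, x j := Equiv.sum_comp σ x
  rw [h1]
  congr 1
  have h2 : ∀ y : Fin n → ℝ, ∏ k : Fin n, ∏ j ∈ Finset.Ioi k, (y j - y k) ^ 2 =
      (Matrix.vandermonde y).det ^ 2 := by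
    intro y
    rw [Matrix.det_vandermonde, ← Finset.prod_pow]
    refine Finset.prod_congr rfl fun k _ => ?_
    rw [← Finset.prod_pow]
  rw [h2, h2]
  have h3 : Matrix.vandermonde (x ∘ σ) = (Matrix.vandermonde x).submatrix σ id := by
    ext i j
    simp [Matrix.vandermonde]
  rw [h3, Matrix.det_permute]
  rw [mul_pow]
  have : ((Equiv.Perm.sign σ : ℤ) : ℝ) ^ 2 = 1 := by
    rcases Int.units_eq_one_or (Equiv.Perm.sign σ) with h | h <;> simp [h]
  rw [this, one_mul]

/-- crude bound of the weight -/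
lemma P_le {n : ℕ} {x : Fin n → ℝ} (hx : x ∈ O n) :
    P n x ≤ ∏ j, (Real.exp (-x j) * (1 + x j) ^ (4 * n)) := by
  unfold P
  rw [Finset.prod_mul_distrib, ← Real.exp_sum, Finset.sum_neg_distrib]
  refine mul_le_mul_of_nonneg_left ?_ (Real.exp_pos _).le
  have h1 : ∀ j, 1 ≤ 1 + x j := fun j => by have := hx j; linarith
  calc ∏ k : Fin n, ∏ j ∈ Finset.Ioi k, (x j - x k) ^ 2
      ≤ ∏ k : Fin n, ∏ j : Fin n, ((1 + x j) * (1 + x k)) ^ 2 := by
        refine Finset.prod_le_prod (fun k _ => Finset.prod_nonneg fun j _ => sq_nonneg _) fun k _ => ?_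
        calc ∏ j ∈ Finset.Ioi k, (x j - x k) ^ 2
            ≤ ∏ j ∈ Finset.Ioi k, ((1 + x j) * (1 + x k)) ^ 2 := by
              refine Finset.prod_le_prod (fun j _ => sq_nonneg _) fun j _ => ?_
              rw [sq_le_sq, abs_of_pos (mul_pos (show (0 : ℝ) < 1 + x j by linarith [h1 j])
                (show (0 : ℝ) < 1 + x k by linarith [h1 k]))]
              have h2 := hx j; have h3 := hx k
              rw [abs_le]
              constructor <;> nlinarith
          _ ≤ ∏ j : Fin n, ((1 + x j) * (1 + x k)) ^ 2 := by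
              refine Finset.prod_le_prod_of_subset_of_one_le (Finset.subset_univ _)
                (fun j _ => sq_nonneg _) fun j _ _ => ?_
              have : 1 ≤ (1 + x j) * (1 + x k) := by nlinarith [h1 j, h1 k]
              nlinarith
    _ = ∏ j, (1 + x j) ^ (4 * n) := by
        have h4 : ∀ k : Fin n, ∏ j : Fin n, ((1 + x j) * (1 + x k)) ^ 2 =
            (∏ j : Fin n, (1 + x j)) ^ 2 * (1 + x k) ^ (2 * n) := by
          intro k
          rw [Finset.prod_pow, Finset.prod_mul_distrib, Finset.prod_const, Finset.card_univ,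
            Fintype.card_fin, mul_pow, ← pow_mul, mul_comm n 2]
        simp_rw [h4]
        rw [Finset.prod_mul_distrib, Finset.prod_const, Finset.card_univ, Fintype.card_fin,
          ← pow_mul, Finset.prod_pow, Finset.prod_pow, ← pow_add]
        congr 1
        ring

/-- one dimensional dominating function -/
noncomputable def dom1 (m : ℕ) (x : ℝ) : ℝ :=
  (Ioi (0 : ℝ)).indicator (fun x => Real.exp (-x) * (1 + x) ^ m * x ^ (-(1 / 2) : ℝ)) x

lemma dom1_int (m : ℕ) : Integrable (dom1 m) := by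
  unfold dom1
  rw [integrable_indicator_iff measurableSet_Ioi]
  have h1 : ∀ k : ℕ, IntegrableOn (fun x : ℝ => Real.exp (-x) * x ^ ((k + 1 / 2 : ℝ) - 1)) (Ioi 0) := fun k =>
    Real.GammaIntegral_convergent (by positivity)
  have h2 : IntegrableOn (fun x : ℝ => ∑ k ∈ Finset.range (m + 1),
      (m.choose k : ℝ) * (Real.exp (-x) * x ^ ((k + 1 / 2 : ℝ) - 1))) (Ioi 0) :=
    integrable_finsetSum _ fun k _ => (h1 k).const_mul _
  refine h2.congr_fun (fun x hx => ?_) measurableSet_Ioi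
  have hx0 : (0 : ℝ) < x := hx
  simp only
  rw [add_comm (1 : ℝ) x, add_pow, Finset.mul_sum, Finset.sum_mul]
  refine Finset.sum_congr rfl fun k _ => ?_
  have : x ^ ((k + 1 / 2 : ℝ) - 1) = x ^ k * x ^ (-(1 / 2) : ℝ) := by
    rw [← Real.rpow_natCast x k, ← Real.rpow_add hx0]
    congr 1
    ring
  rw [this, one_pow]
  ring

lemma dom_int (n m : ℕ) : Integrable fun x : Fin n → ℝ => ∏ j, dom1 m (x j) :=
  Integrable.fintype_prod (fun _ => dom1_int m)

/-- bounded by `q` times a constant implies integrable against `P` -/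
lemma integ_of_bound {n : ℕ} (h : (Fin n → ℝ) → ℝ) (hm : Measurable h) (C : ℝ)
    (hb : ∀ x ∈ O n, |h x| ≤ C * ∏ j, ((1 + x j) ^ 2 * x j ^ (-(1 / 2) : ℝ))) :
    IntegrableOn (fun x => P n x * h x) (O n) := by
  have h1 : IntegrableOn (fun x : Fin n → ℝ => C * ∏ j, dom1 (4 * n + 2) (x j)) (O n) :=
    ((dom_int n (4 * n + 2)).const_mul C).integrableOn
  refine Integrable.mono' h1 ((P_cont n).measurable.mul hm).aestronglyMeasurable ?_
  rw [ae_restrict_iff' (O_meas n)]
  refine Filter.Eventually.of_forall fun x hx => ?_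
  rw [norm_mul, Real.norm_of_nonneg (P_nonneg n x), Real.norm_eq_abs]
  have h2 := P_le hx
  have h3 := hb x hx
  have h4 : 0 ≤ ∏ j, (Real.exp (-x j) * (1 + x j) ^ (4 * n)) :=
    Finset.prod_nonneg fun j _ => mul_nonneg (Real.exp_pos _).le
      (pow_nonneg (by have := hx j; linarith) _)
  calc P n x * |h x| ≤ (∏ j, (Real.exp (-x j) * (1 + x j) ^ (4 * n))) *
        (C * ∏ j, ((1 + x j) ^ 2 * x j ^ (-(1 / 2) : ℝ))) :=
        mul_le_mul h2 h3 (abs_nonneg _) h4
    _ = C * ∏ j, dom1 (4 * n + 2) (x j) := by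
        have : ∀ j, dom1 (4 * n + 2) (x j) =
            (Real.exp (-x j) * (1 + x j) ^ (4 * n)) * ((1 + x j) ^ 2 * x j ^ (-(1 / 2) : ℝ)) := by
          intro j
          unfold dom1
          rw [indicator_of_mem (show x j ∈ Ioi (0 : ℝ) from hx j), pow_add]
          ring
        simp_rw [this]
        rw [Finset.prod_mul_distrib (f := fun j => Real.exp (-x j) * (1 + x j) ^ (4 * n))]
        ring

end Pool.Agent.H7.Lag
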