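import Pool.Agent.H7.Lag.Fkg

set_option autoImplicit false

open MeasureTheory Set Filter Topology
open scoped ENNReal

namespace Pool.Agent.H7.Lag

section

variable {n : ℕ}

/-- test point with coordinates `j + c` -/
def pt (n : ℕ) (c : ℝ) : Fin n → ℝ := fun j => (j : ℝ) + c

lemma pt_mem {c : ℝ} (hc : 0 < c) : pt n c ∈ D n := by
  refine ⟨fun i j hij => ?_, fun j => ?_⟩
  · unfold pt
    have : ((i : ℕ) : ℝ) < ((j : ℕ) : ℝ) := by exact_mod_cast hij
    linarith
  · unfold pt
    positivity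

lemma ph_cont (t : ℝ) (ht : 0 < t) : ContinuousOn (ph t : (Fin n → ℝ) → ℝ) (D n) := by
  unfold ph
  refine continuousOn_finsetSum _ fun j _ => ?_
  refine ContinuousOn.div continuousOn_const
    ((continuous_apply j).continuousOn.add continuousOn_const) fun x hx => ?_
  have := hx.2 j
  linarith

/-- positivity of weighted integrals -/
lemma int_pos {t : ℝ} (ht : 0 < t) (g : (Fin n → ℝ) → ℝ) (hg0 : ∀ x, 0 ≤ g x)
    (hgc : ContinuousOn g (D n)) (hne : ∃ x ∈ D n, g x ≠ 0)
    (hi : IntegrableOn (fun x => g x * w t x) (O n)) : 0 < ∫ x in O n, g x * w t x := by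
  have hnn : 0 ≤ᵐ[volume.restrict (O n)] fun x => g x * w t x :=
    (ae_restrict_iff' (O_meas n)).2 (Eventually.of_forall fun x hx =>
      mul_nonneg (hg0 x) (w_nonneg ht.le hx))
  rw [setIntegral_pos_iff_support_of_nonneg_ae hnn hi]
  have hopen : IsOpen (D n ∩ g ⁻¹' {0}ᶜ) := hgc.isOpen_inter_preimage (D_open n) isOpen_compl_singleton
  have hnonempty : (D n ∩ g ⁻¹' {0}ᶜ).Nonempty := by
    obtain ⟨x, hx, hx0⟩ := hne
    exact ⟨x, hx, hx0⟩
  refine lt_of_lt_of_le (hopen.measure_pos volume hnonempty) (measure_mono ?_)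
  intro x hx
  refine ⟨?_, D_sub n hx.1⟩
  rw [Function.mem_support]
  exact mul_ne_zero hx.2 (mul_pos (P_pos hx.1) (pw_pos ht.le (D_sub n hx.1))).ne'

/-- integral of a linear combination -/
lemma comb {s : Set (Fin n → ℝ)} (hs : MeasurableSet s) (a b c d : ℝ) (f f1 f2 f3 f4 : (Fin n → ℝ) → ℝ)
    (i1 : IntegrableOn f1 s) (i2 : IntegrableOn f2 s) (i3 : IntegrableOn f3 s) (i4 : IntegrableOn f4 s)
    (h : ∀ x ∈ s, f x = a * f1 x + b * f2 x + c * f3 x + d * f4 x) :
    IntegrableOn f s ∧ ∫ x in s, f x = a * (∫ x in s, f1 x) + b * (∫ x in s, f2 x) +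
      c * (∫ x in s, f3 x) + d * (∫ x in s, f4 x) := by
  have j1 : IntegrableOn (fun x => a * f1 x) s := i1.const_mul a
  have j2 : IntegrableOn (fun x => b * f2 x) s := i2.const_mul b
  have j3 : IntegrableOn (fun x => c * f3 x) s := i3.const_mul c
  have j4 : IntegrableOn (fun x => d * f4 x) s := i4.const_mul d
  have j12 : IntegrableOn (fun x => a * f1 x + b * f2 x) s := j1.add j2
  have j123 : IntegrableOn (fun x => a * f1 x + b * f2 x + c * f3 x) s := j12.add j3
  have j : IntegrableOn (fun x => a * f1 x + b * f2 x + c * f3 x + d * f4 x) s := j123.add j4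
  refine ⟨j.congr_fun (fun x hx => (h x hx).symm) hs, ?_⟩
  rw [setIntegral_congr_fun hs h, integral_add j123 j4, integral_add j12 j3, integral_add j1 j2,
    integral_const_mul, integral_const_mul, integral_const_mul, integral_const_mul]

lemma prod_pw {t : ℝ} (ht : 0 < t) {x : Fin n → ℝ} (hx : x ∈ O n) :
    (∏ j, (x j + t)) * w t x = P n x * pw (1 / 2) t x := by
  unfold w pw
  have : ∀ j, (x j + t) ^ (1 / 2 : ℝ) = (x j + t) * (x j + t) ^ (-(1 / 2) : ℝ) := by
    intro j
    have h : 0 < x j + t := by have := hx j; linarith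
    rw [← Real.rpow_one_add' h.le (by norm_num)]
    norm_num
  simp_rw [this]
  rw [Finset.prod_mul_distrib]
  ring

theorem key (hn : 1 ≤ n) {t : ℝ} (ht : 0 < t) :
    (∫ x in O n, w t x) * (∫ x in O n, P n x * (ph t x * pw (1 / 2) t x)) -
      (∫ x in O n, P n x * (ph t x * pw (-(1 / 2)) t x)) * (∫ x in O n, P n x * pw (1 / 2) t x) < 0 := by
  set A0 := ∫ x in O n, w t x with hA0
  set A1 := ∫ x in O n, P n x * (ph t x * pw (-(1 / 2)) t x) with hA1
  set B0 := ∫ x in O n, P n x * pw (1 / 2) t x with hB0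
  set B1 := ∫ x in O n, P n x * (ph t x * pw (1 / 2) t x) with hB1
  set V := ∫ x in O n, P n x * (ph t x ^ 2 * pw (-(1 / 2)) t x) with hV
  have iA0 : IntegrableOn (fun x : Fin n → ℝ => w t x) (O n) := int_neg ht.le
  have iA1 := int_neg_ph (n := n) ht
  have iB0 := int_half (n := n) ht.le
  have iB1 := int_half_ph (n := n) ht
  have iV := int_neg_ph2 (n := n) ht
  set k : ℝ := n / t with hk
  set e : ℝ := t ^ (n + 1) with he
  have he0 : 0 < e := by positivity
  -- the three functions
  obtain ⟨i1, v1⟩ := comb (O_meas n) k (-1) 0 0 (fun x => (k - ph t x) * w t x) _ _ _ _ iA0 iA1 iA0 iA0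
    (by intro x _; unfold w; ring)
  obtain ⟨i2, v2⟩ := comb (O_meas n) 1 e 0 0 (fun x => ((∏ j, (x j + t)) + e * ph t x) * w t x)
    _ _ _ _ iB0 iA1 iA0 iA0 (by
      intro x hx
      rw [add_mul, prod_pw ht hx]
      unfold w; ring)
  obtain ⟨i3, v3⟩ := comb (O_meas n) k (k * e) (-1) (-e)
    (fun x => (k - ph t x) * ((∏ j, (x j + t)) + e * ph t x) * w t x) _ _ _ _ iB0 iA1 iB1 iV (by
      intro x hx
      have h := prod_pw ht hx
      calc (k - ph t x) * ((∏ j, (x j + t)) + e * ph t x) * w t x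
          = (k - ph t x) * ((∏ j, (x j + t)) * w t x) + (k - ph t x) * (e * ph t x) * w t x := by ring
        _ = _ := by rw [h]; unfold w; ring)
  have hfkg := fkg_O ht.le (fun x : Fin n → ℝ => k - ph t x)
    (fun x => (∏ j, (x j + t)) + e * ph t x)
    (measurable_const.sub (ph_meas t)) (by have := ph_meas (n := n) t; fun_prop)
    (fun x hx => sub_nonneg.2 (ph_le ht hx))
    (fun x hx => add_nonneg (Finset.prod_nonneg fun j _ => by have := hx j; linarith)
      (mul_nonneg he0.le (ph_nonneg ht.le hx)))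
    (fun x hx y hy hxy => by
      have : ph t y ≤ ph t x := Finset.sum_le_sum fun j _ => by
        have h1 := hx j; have h2 := hxy j
        exact one_div_le_one_div_of_le (by linarith) (by linarith)
      show k - ph t x ≤ k - ph t y
      linarith)
    (fun x hx y hy hxy => u_mono ht hx hy hxy)
    (fun σ x => by
      show k - ph t (x ∘ σ) = k - ph t x
      rw [ph_symm])
    (fun σ x => by
      show (∏ j, ((x ∘ σ) j + t)) + e * ph t (x ∘ σ) = (∏ j, (x j + t)) + e * ph t x
      rw [ph_symm]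
      congr 1
      exact Equiv.prod_comp σ (fun j => x j + t))
    i1 i2 i3 iA0
  rw [v1, v2, v3] at hfkg
  simp only [← hA0, ← hA1, ← hB0, ← hB1, ← hV] at hfkg
  -- A0 > 0
  have hA0pos : 0 < A0 := by
    have := int_pos (n := n) ht (fun _ => 1) (fun _ => zero_le_one) continuousOn_const
      ⟨pt n 1, pt_mem one_pos, one_ne_zero⟩ (by simpa using iA0)
    simpa using this
  -- strict Cauchy-Schwarz
  have hCS : 0 < A0 * V - A1 ^ 2 := by
    obtain ⟨hi, hv⟩ := comb (O_meas n) (A0 ^ 2) (-(2 * A0 * A1)) (A1 ^ 2) 0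
      (fun x => (A0 * ph t x - A1) ^ 2 * w t x) _ _ _ _ iV iA1 iA0 iA0 (by
        intro x _; unfold w; ring)
    have hpos := int_pos (n := n) ht (fun x => (A0 * ph t x - A1) ^ 2) (fun x => sq_nonneg _)
      (((continuousOn_const.mul (ph_cont t ht)).sub continuousOn_const).pow 2) (by
        by_contra hcon
        push Not at hcon
        have h1 := hcon (pt n 1) (pt_mem one_pos)
        have h2 := hcon (pt n 2) (pt_mem two_pos)
        have h3 : A0 * ph t (pt n 1) - A1 = 0 := pow_eq_zero_iff (two_ne_zero) |>.1 h1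
        have h4 : A0 * ph t (pt n 2) - A1 = 0 := pow_eq_zero_iff (two_ne_zero) |>.1 h2
        have h5 : A0 * (ph t (pt n 1) - ph t (pt n 2)) = 0 := by linarith
        have h6 : ph t (pt n 2) < ph t (pt n 1) := by
          unfold ph
          have : Nonempty (Fin n) := ⟨⟨0, hn⟩⟩
          refine Finset.sum_lt_sum_of_nonempty Finset.univ_nonempty fun j _ => ?_
          unfold pt
          refine one_div_lt_one_div_of_lt (by positivity) (by linarith)
        have h7 : 0 < A0 * (ph t (pt n 1) - ph t (pt n 2)) := mul_pos hA0pos (by linarith)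
        linarith) hi
    rw [hv] at hpos
    simp only [← hA0, ← hA1, ← hV] at hpos
    have hpos' : 0 < A0 * (A0 * V - A1 ^ 2) := by nlinarith
    exact (mul_pos_iff_of_pos_left hA0pos).1 hpos'
  nlinarith [mul_pos he0 hCS]

end

/-- main theorem -/
theorem main {n : ℕ} (hn : 1 ≤ n) :
    StrictAntiOn (fun t => F n t * G n t) (Ici 0) ∧
      ∀ t : ℝ, 0 < t → DifferentiableAt ℝ (fun t => F n t * G n t) t ∧
        2 * deriv (fun t => F n t * G n t) t < 0 := by
  have hd : ∀ t : ℝ, 0 < t → DifferentiableAt ℝ (fun t => F n t * G n t) t ∧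
        2 * deriv (fun t => F n t * G n t) t < 0 := by
    intro t ht
    have h1 := (F_deriv (n := n) ht).mul (G_deriv (n := n) ht)
    have h2 : HasDerivAt (fun t => F n t * G n t) _ t := h1
    refine ⟨h2.differentiableAt, ?_⟩
    rw [h2.deriv]
    have h3 := key hn ht
    have hF : F n t = ∫ x in O n, w t x := F_eq n t
    have hG : G n t = ∫ x in O n, P n x * pw (1 / 2) t x := G_eq n t
    rw [hF, hG]
    linarith
  refine ⟨?_, hd⟩
  apply strictAntiOn_of_deriv_neg (convex_Ici 0) (F_cont.mul G_cont)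
  intro t ht
  rw [interior_Ici] at ht
  have h4 := (hd t ht).2
  have h5 : deriv (F n * G n) t = deriv (fun t => F n t * G n t) t := rfl
  rw [h5]
  linarith

end Pool.Agent.H7.Lag
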