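import Pool.Agent.H7.Lag.Main

set_option autoImplicit false

open MeasureTheory Set Filter Topology
open scoped ENNReal

namespace Pool.Agent.H7.Lag

section

variable {n : ℕ}

/-- two-point inequality for one Vandermonde factor -/
lemma vand2 {a b a' b' : ℝ} (h : b < a) (h' : b' < a') :
    (a - b) ^ 2 * (a' - b') ^ 2 ≤ (max a a' - max b b') ^ 2 * (min a a' - min b b') ^ 2 := by
  rw [← mul_pow, ← mul_pow]
  apply pow_le_pow_left₀ (mul_nonneg (by linarith) (by linarith))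
  rcases le_total a a' with h1 | h1 <;> rcases le_total b b' with h2 | h2
  · rw [max_eq_right h1, max_eq_right h2, min_eq_left h1, min_eq_left h2]; nlinarith
  · rw [max_eq_right h1, max_eq_left h2, min_eq_left h1, min_eq_right h2]
    nlinarith [mul_nonneg (sub_nonneg.2 h1) (sub_nonneg.2 h2)]
  · rw [max_eq_left h1, max_eq_right h2, min_eq_right h1, min_eq_left h2]
    nlinarith [mul_nonneg (sub_nonneg.2 h1) (sub_nonneg.2 h2)]
  · rw [max_eq_left h1, max_eq_left h2, min_eq_right h1, min_eq_right h2]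

/-- `P` is log-supermodular on the chamber -/
lemma P_mtp {x y : Fin n → ℝ} (hx : x ∈ D n) (hy : y ∈ D n) :
    P n x * P n y ≤ P n (x ⊔ y) * P n (x ⊓ y) := by
  unfold P
  have h1 : ∑ j, x j + ∑ j, y j = ∑ j, (x ⊔ y) j + ∑ j, (x ⊓ y) j := by
    rw [← Finset.sum_add_distrib, ← Finset.sum_add_distrib]
    refine Finset.sum_congr rfl fun j _ => ?_
    simp only [Pi.sup_apply, Pi.inf_apply]
    exact (max_add_min _ _).symm
  have h2 : Real.exp (-∑ j, x j) * Real.exp (-∑ j, y j) =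
      Real.exp (-∑ j, (x ⊔ y) j) * Real.exp (-∑ j, (x ⊓ y) j) := by
    rw [← Real.exp_add, ← Real.exp_add]
    congr 1
    linarith
  have h3 : (∏ k : Fin n, ∏ j ∈ Finset.Ioi k, (x j - x k) ^ 2) *
      (∏ k : Fin n, ∏ j ∈ Finset.Ioi k, (y j - y k) ^ 2) ≤
      (∏ k : Fin n, ∏ j ∈ Finset.Ioi k, ((x ⊔ y) j - (x ⊔ y) k) ^ 2) *
      (∏ k : Fin n, ∏ j ∈ Finset.Ioi k, ((x ⊓ y) j - (x ⊓ y) k) ^ 2) := by
    rw [← Finset.prod_mul_distrib, ← Finset.prod_mul_distrib]
    refine Finset.prod_le_prod (fun k _ => ?_) fun k _ => ?_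
    · exact mul_nonneg (Finset.prod_nonneg fun j _ => sq_nonneg _) (Finset.prod_nonneg fun j _ => sq_nonneg _)
    · rw [← Finset.prod_mul_distrib, ← Finset.prod_mul_distrib]
      refine Finset.prod_le_prod (fun j _ => by positivity) fun j hj => ?_
      have hkj := Finset.mem_Ioi.1 hj
      exact vand2 (hx.1 hkj) (hy.1 hkj)
  calc _ = (Real.exp (-∑ j, x j) * Real.exp (-∑ j, y j)) *
        ((∏ k : Fin n, ∏ j ∈ Finset.Ioi k, (x j - x k) ^ 2) *
          (∏ k : Fin n, ∏ j ∈ Finset.Ioi k, (y j - y k) ^ 2)) := by ring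
    _ ≤ (Real.exp (-∑ j, (x ⊔ y) j) * Real.exp (-∑ j, (x ⊓ y) j)) *
      ((∏ k : Fin n, ∏ j ∈ Finset.Ioi k, ((x ⊔ y) j - (x ⊔ y) k) ^ 2) *
      (∏ k : Fin n, ∏ j ∈ Finset.Ioi k, ((x ⊓ y) j - (x ⊓ y) k) ^ 2)) := by
        rw [h2]
        exact mul_le_mul_of_nonneg_left h3 (by positivity)
    _ = _ := by ring

/-- the weight -/
noncomputable def w (t : ℝ) (x : Fin n → ℝ) : ℝ := P n x * pw (-(1 / 2)) t x

lemma w_nonneg {t : ℝ} (ht : 0 ≤ t) {x : Fin n → ℝ} (hx : x ∈ O n) : 0 ≤ w t x :=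
  mul_nonneg (P_nonneg n x) (pw_pos ht hx).le

lemma w_meas (t : ℝ) : Measurable (w t : (Fin n → ℝ) → ℝ) := (P_cont n).measurable.mul (pw_meas _ _)

lemma w_mtp {t : ℝ} (ht : 0 ≤ t) {x y : Fin n → ℝ} (hx : x ∈ D n) (hy : y ∈ D n) :
    w t x * w t y ≤ w t (x ⊔ y) * w t (x ⊓ y) := by
  have h1 := P_mtp hx hy
  have h2 : pw (-(1 / 2)) t x * pw (-(1 / 2)) t y = pw (-(1 / 2)) t (x ⊔ y) * pw (-(1 / 2)) t (x ⊓ y) := by
    unfold pw
    rw [← Finset.prod_mul_distrib, ← Finset.prod_mul_distrib]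
    refine Finset.prod_congr rfl fun j _ => ?_
    simp only [Pi.sup_apply, Pi.inf_apply]
    rcases le_total (x j) (y j) with h | h
    · rw [max_eq_right h, min_eq_left h, mul_comm]
    · rw [max_eq_left h, min_eq_right h]
  have h3 : 0 ≤ pw (-(1 / 2)) t x * pw (-(1 / 2)) t y :=
    (mul_pos (pw_pos ht (D_sub n hx)) (pw_pos ht (D_sub n hy))).le
  unfold w
  calc _ = (P n x * P n y) * (pw (-(1 / 2)) t x * pw (-(1 / 2)) t y) := by ring
    _ ≤ (P n (x ⊔ y) * P n (x ⊓ y)) * (pw (-(1 / 2)) t x * pw (-(1 / 2)) t y) :=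
        mul_le_mul_of_nonneg_right h1 h3
    _ = _ := by rw [h2]; ring

/-- FKG inequality on the chamber in terms of lower integrals -/
lemma fkg_D {t : ℝ} (ht : 0 ≤ t) (f g : (Fin n → ℝ) → ℝ) (hf : Measurable f) (hg : Measurable g)
    (hf0 : ∀ x ∈ O n, 0 ≤ f x) (hg0 : ∀ x ∈ O n, 0 ≤ g x)
    (hfm : ∀ x ∈ O n, ∀ y ∈ O n, x ≤ y → f x ≤ f y) (hgm : ∀ x ∈ O n, ∀ y ∈ O n, x ≤ y → g x ≤ g y) :
    (∫⁻ x in D n, ENNReal.ofReal (f x * w t x)) * (∫⁻ x in D n, ENNReal.ofReal (g x * w t x)) ≤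
      (∫⁻ x in D n, ENNReal.ofReal (f x * g x * w t x)) * (∫⁻ x in D n, ENNReal.ofReal (w t x)) := by
  have hw := w_meas (n := n) t
  have m1 : Measurable fun x : Fin n → ℝ => ENNReal.ofReal (f x * w t x) := (hf.mul hw).ennreal_ofReal
  have m2 : Measurable fun x : Fin n → ℝ => ENNReal.ofReal (g x * w t x) := (hg.mul hw).ennreal_ofReal
  have m3 : Measurable fun x : Fin n → ℝ => ENNReal.ofReal (f x * g x * w t x) :=
    ((hf.mul hg).mul hw).ennreal_ofReal
  have m4 : Measurable fun x : Fin n → ℝ => ENNReal.ofReal (w t x) := hw.ennreal_ofReal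
  rw [← lintegral_indicator (D_meas n), ← lintegral_indicator (D_meas n),
    ← lintegral_indicator (D_meas n), ← lintegral_indicator (D_meas n)]
  refine four n _ _ _ _ (m1.indicator (D_meas n)) (m2.indicator (D_meas n)) (m3.indicator (D_meas n))
    (m4.indicator (D_meas n)) fun x y => ?_
  by_cases hx : x ∈ D n
  swap
  · rw [indicator_of_notMem hx]; simp
  by_cases hy : y ∈ D n
  swap
  · rw [indicator_of_notMem hy]; simp
  rw [indicator_of_mem hx, indicator_of_mem hy, indicator_of_mem (D_sup hx hy),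
    indicator_of_mem (D_inf hx hy)]
  have hxO := D_sub n hx
  have hyO := D_sub n hy
  have hsO := D_sub n (D_sup hx hy)
  have hiO := D_sub n (D_inf hx hy)
  have hwx := w_nonneg ht hxO
  have hwy := w_nonneg ht hyO
  have hws := w_nonneg ht hsO
  have hwi := w_nonneg ht hiO
  rw [← ENNReal.ofReal_mul (mul_nonneg (hf0 x hxO) hwx),
    ← ENNReal.ofReal_mul (mul_nonneg (mul_nonneg (hf0 _ hsO) (hg0 _ hsO)) hws)]
  apply ENNReal.ofReal_le_ofReal
  have h1 := w_mtp ht hx hy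
  have h2 : f x * g y ≤ f (x ⊔ y) * g (x ⊔ y) :=
    mul_le_mul (hfm x hxO _ hsO le_sup_left) (hgm y hyO _ hsO le_sup_right) (hg0 y hyO) (hf0 _ hsO)
  calc f x * w t x * (g y * w t y) = (f x * g y) * (w t x * w t y) := by ring
    _ ≤ (f (x ⊔ y) * g (x ⊔ y)) * (w t (x ⊔ y) * w t (x ⊓ y)) :=
        mul_le_mul h2 h1 (mul_nonneg hwx hwy) (mul_nonneg (hf0 _ hsO) (hg0 _ hsO))
    _ = _ := by ring

lemma O_symm (σ : Equiv.Perm (Fin n)) (x : Fin n → ℝ) : x ∘ σ ∈ O n ↔ x ∈ O n := by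
  unfold O
  simp only [mem_ofPred_eq, Function.comp]
  exact ⟨fun h j => by have := h (σ.symm j); simpa using this, fun h j => h (σ j)⟩

/-- symmetric integrals over the orthant -/
lemma lint_O (h : (Fin n → ℝ) → ℝ≥0∞) (hm : Measurable h)
    (hs : ∀ (σ : Equiv.Perm (Fin n)) x, h (x ∘ σ) = h x) :
    ∫⁻ x in O n, h x = (n.factorial : ℝ≥0∞) * ∫⁻ x in D n, h x := by
  rw [← lintegral_indicator (O_meas n), lint_symm n _ (hm.indicator (O_meas n))]
  · congr 1
    have hS : MeasurableSet {x : Fin n → ℝ | StrictMono x} := chamber_meas n 1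
    rw [← lintegral_indicator hS, ← lintegral_indicator (D_meas n)]
    refine lintegral_congr fun x => ?_
    by_cases h1 : StrictMono x
    · by_cases h2 : x ∈ O n
      · rw [indicator_of_mem (by exact h1), indicator_of_mem h2, indicator_of_mem (by exact ⟨h1, h2⟩)]
      · rw [indicator_of_mem (by exact h1), indicator_of_notMem h2,
          indicator_of_notMem (fun h => h2 h.2)]
    · rw [indicator_of_notMem (by exact h1), indicator_of_notMem (fun h => h1 h.1)]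
  · intro σ x
    by_cases h2 : x ∈ O n
    · rw [indicator_of_mem ((O_symm σ x).2 h2), indicator_of_mem h2, hs]
    · rw [indicator_of_notMem (fun h => h2 ((O_symm σ x).1 h)), indicator_of_notMem h2]

lemma pw_symm (s t : ℝ) (σ : Equiv.Perm (Fin n)) (x : Fin n → ℝ) : pw s t (x ∘ σ) = pw s t x := by
  unfold pw
  exact Equiv.prod_comp σ (fun j => (x j + t) ^ s)

lemma ph_symm (t : ℝ) (σ : Equiv.Perm (Fin n)) (x : Fin n → ℝ) : ph t (x ∘ σ) = ph t x := by
  unfold ph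
  exact Equiv.sum_comp σ (fun j => 1 / (x j + t))

lemma w_symm (t : ℝ) (σ : Equiv.Perm (Fin n)) (x : Fin n → ℝ) : w t (x ∘ σ) = w t x := by
  unfold w; rw [P_symm, pw_symm]

/-- FKG on the whole orthant, for symmetric functions, real integrals -/
lemma fkg_O {t : ℝ} (ht : 0 ≤ t) (f g : (Fin n → ℝ) → ℝ) (hf : Measurable f) (hg : Measurable g)
    (hf0 : ∀ x ∈ O n, 0 ≤ f x) (hg0 : ∀ x ∈ O n, 0 ≤ g x)
    (hfm : ∀ x ∈ O n, ∀ y ∈ O n, x ≤ y → f x ≤ f y) (hgm : ∀ x ∈ O n, ∀ y ∈ O n, x ≤ y → g x ≤ g y)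
    (hfs : ∀ (σ : Equiv.Perm (Fin n)) x, f (x ∘ σ) = f x)
    (hgs : ∀ (σ : Equiv.Perm (Fin n)) x, g (x ∘ σ) = g x)
    (i1 : IntegrableOn (fun x => f x * w t x) (O n)) (i2 : IntegrableOn (fun x => g x * w t x) (O n))
    (i3 : IntegrableOn (fun x => f x * g x * w t x) (O n)) (i4 : IntegrableOn (fun x => w t x) (O n)) :
    (∫ x in O n, f x * w t x) * (∫ x in O n, g x * w t x) ≤
      (∫ x in O n, f x * g x * w t x) * (∫ x in O n, w t x) := by
  have hw := w_meas (n := n) t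
  have h1 := fkg_D ht f g hf hg hf0 hg0 hfm hgm
  have h2 : (∫⁻ x in O n, ENNReal.ofReal (f x * w t x)) * (∫⁻ x in O n, ENNReal.ofReal (g x * w t x)) ≤
      (∫⁻ x in O n, ENNReal.ofReal (f x * g x * w t x)) * (∫⁻ x in O n, ENNReal.ofReal (w t x)) := by
    rw [lint_O (fun x => ENNReal.ofReal (f x * w t x)) (hf.mul hw).ennreal_ofReal
        (fun σ x => by rw [hfs, w_symm]),
      lint_O (fun x => ENNReal.ofReal (g x * w t x)) (hg.mul hw).ennreal_ofReal
        (fun σ x => by rw [hgs, w_symm]),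
      lint_O (fun x => ENNReal.ofReal (f x * g x * w t x)) ((hf.mul hg).mul hw).ennreal_ofReal
        (fun σ x => by rw [hfs, hgs, w_symm]),
      lint_O (fun x => ENNReal.ofReal (w t x)) hw.ennreal_ofReal (fun σ x => by rw [w_symm])]
    calc _ = ((n.factorial : ℝ≥0∞) * n.factorial) * ((∫⁻ x in D n, ENNReal.ofReal (f x * w t x)) *
          (∫⁻ x in D n, ENNReal.ofReal (g x * w t x))) := by ring
      _ ≤ ((n.factorial : ℝ≥0∞) * n.factorial) * ((∫⁻ x in D n, ENNReal.ofReal (f x * g x * w t x)) *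
          (∫⁻ x in D n, ENNReal.ofReal (w t x))) := mul_le_mul' le_rfl h1
      _ = _ := by ring
  have conv : ∀ h : (Fin n → ℝ) → ℝ, IntegrableOn h (O n) → (∀ x ∈ O n, 0 ≤ h x) →
      ∫⁻ x in O n, ENNReal.ofReal (h x) = ENNReal.ofReal (∫ x in O n, h x) := by
    intro h hi h0
    rw [ofReal_integral_eq_lintegral_ofReal hi]
    exact (ae_restrict_iff' (O_meas n)).2 (Eventually.of_forall h0)
  have nn : ∀ h : (Fin n → ℝ) → ℝ, (∀ x ∈ O n, 0 ≤ h x) → 0 ≤ ∫ x in O n, h x := fun h h0 =>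
    setIntegral_nonneg (O_meas n) h0
  have p1 : ∀ x ∈ O n, 0 ≤ f x * w t x := fun x hx => mul_nonneg (hf0 x hx) (w_nonneg ht hx)
  have p2 : ∀ x ∈ O n, 0 ≤ g x * w t x := fun x hx => mul_nonneg (hg0 x hx) (w_nonneg ht hx)
  have p3 : ∀ x ∈ O n, 0 ≤ f x * g x * w t x := fun x hx =>
    mul_nonneg (mul_nonneg (hf0 x hx) (hg0 x hx)) (w_nonneg ht hx)
  have p4 : ∀ x ∈ O n, 0 ≤ w t x := fun x hx => w_nonneg ht hx
  rw [conv _ i1 p1, conv _ i2 p2, conv _ i3 p3, conv _ i4 p4, ← ENNReal.ofReal_mul (nn _ p1),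
    ← ENNReal.ofReal_mul (nn _ p3)] at h2
  exact (ENNReal.ofReal_le_ofReal_iff (mul_nonneg (nn _ p3) (nn _ p4))).1 h2

/-- growth of the product -/
lemma prod_growth {t : ℝ} (ht : 0 ≤ t) (a d : Fin n → ℝ) (ha : ∀ j, t ≤ a j) (hd : ∀ j, 0 ≤ d j)
    (s : Finset (Fin n)) :
    t ^ s.card * ∑ j ∈ s, d j ≤ t * (∏ j ∈ s, (a j + d j) - ∏ j ∈ s, a j) := by
  induction s using Finset.induction_on with
  | empty => simp
  | insert j s hj ih =>
    rw [Finset.card_insert_of_notMem hj, Finset.sum_insert hj, Finset.prod_insert hj,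
      Finset.prod_insert hj]
    have h1 : t ^ s.card ≤ ∏ i ∈ s, (a i + d i) := by
      rw [← Finset.prod_const]
      exact Finset.prod_le_prod (fun _ _ => ht) fun i _ => by linarith [ha i, hd i]
    have h2 : 0 ≤ ∑ i ∈ s, d i := Finset.sum_nonneg fun i _ => hd i
    have h3 : 0 ≤ t ^ s.card * ∑ i ∈ s, d i := by positivity
    have h4 := mul_le_mul_of_nonneg_left h1 (mul_nonneg ht (hd j))
    have h5 := mul_le_mul_of_nonneg_left ih (ht.trans (ha j))
    have h6 := mul_le_mul_of_nonneg_right (ha j) h3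
    rw [pow_succ]
    nlinarith

/-- `u = ∏ (x_j+t) + t^{n+1} φ` is increasing -/
lemma u_mono {t : ℝ} (ht : 0 < t) {x y : Fin n → ℝ} (hx : x ∈ O n) (hy : y ∈ O n) (hxy : x ≤ y) :
    (∏ j, (x j + t)) + t ^ (n + 1) * ph t x ≤ (∏ j, (y j + t)) + t ^ (n + 1) * ph t y := by
  have h1 := prod_growth ht.le (fun j => x j + t) (fun j => y j - x j)
    (fun j => by have := hx j; linarith) (fun j => by have := hxy j; linarith)
    Finset.univ
  have h2 : ∀ j, (x j + t) + (y j - x j) = y j + t := fun j => by ring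
  simp only [h2, Finset.card_univ, Fintype.card_fin] at h1
  have h3 : t ^ 2 * (ph t x - ph t y) ≤ ∑ j, (y j - x j) := by
    unfold ph
    rw [← Finset.sum_sub_distrib, Finset.mul_sum]
    refine Finset.sum_le_sum fun j _ => ?_
    have hxj := hx j; have hyj := hy j; have hxyj := hxy j
    have e1 : 1 / (x j + t) - 1 / (y j + t) = (y j - x j) / ((x j + t) * (y j + t)) := by
      field_simp; ring
    rw [e1, ← mul_div_assoc, div_le_iff₀ (by positivity)]
    have e2 : t ^ 2 ≤ (x j + t) * (y j + t) := by nlinarith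
    nlinarith [sub_nonneg.2 hxyj]
  have h4 : 0 < t ^ n := by positivity
  have h5 : t ^ n * (t ^ 2 * (ph t x - ph t y)) ≤ t ^ n * ∑ j, (y j - x j) :=
    mul_le_mul_of_nonneg_left h3 h4.le
  have h6 : t * (t ^ (n + 1) * (ph t x - ph t y)) ≤ t * ((∏ j, (y j + t)) - ∏ j, (x j + t)) := by
    calc t * (t ^ (n + 1) * (ph t x - ph t y)) = t ^ n * (t ^ 2 * (ph t x - ph t y)) := by
          rw [pow_succ]; ring
      _ ≤ _ := h5.trans h1
  have h7 := le_of_mul_le_mul_left h6 ht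
  nlinarith

end

end Pool.Agent.H7.Lag
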