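import Mathlib

set_option autoImplicit false

open MeasureTheory Set
open scoped ENNReal

namespace Pool.Agent.H7.Lag

lemma alg (a b c d : ℝ≥0∞) (hac : a ≤ c) (hbc : b ≤ c) (h : a * b ≤ c * d) : a + b ≤ c + d := by
  rcases eq_or_ne c ∞ with hc | hc
  · rw [hc]; simp
  rcases eq_or_ne d ∞ with hd | hd
  · rw [hd]; simp
  have ha : a ≠ ∞ := ne_top_of_le_ne_top hc hac
  have hb : b ≠ ∞ := ne_top_of_le_ne_top hc hbc
  lift a to NNReal using ha
  lift b to NNReal using hb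
  lift c to NNReal using hc
  lift d to NNReal using hd
  norm_cast at *
  have hac' : (a : ℝ) ≤ c := by exact_mod_cast hac
  have hbc' : (b : ℝ) ≤ c := by exact_mod_cast hbc
  have h' : (a : ℝ) * b ≤ c * d := by exact_mod_cast h
  have ha0 : (0 : ℝ) ≤ a := a.2
  have hb0 : (0 : ℝ) ≤ b := b.2
  have hc0 : (0 : ℝ) ≤ c := c.2
  have hd0 : (0 : ℝ) ≤ d := d.2
  have : (a : ℝ) + b ≤ c + d := by
    rcases hc0.eq_or_lt with h0 | h0
    · have : (a : ℝ) = 0 := by linarith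
      have : (b : ℝ) = 0 := by linarith
      linarith
    · have h1 : (c : ℝ) * (a + b) ≤ c * (c + d) := by nlinarith [mul_nonneg (sub_nonneg.2 hac') (sub_nonneg.2 hbc')]
      exact le_of_mul_le_mul_left h1 h0
  exact_mod_cast this

/-- one dimensional four functions theorem -/
lemma four1 (μ : Measure ℝ) (f1 f2 f3 f4 : ℝ → ℝ≥0∞) (h1 : Measurable f1) (h2 : Measurable f2)
    (h3 : Measurable f3) (h4 : Measurable f4)
    (h : ∀ x y, f1 x * f2 y ≤ f3 (x ⊔ y) * f4 (x ⊓ y)) :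
    (∫⁻ x, f1 x ∂μ) * (∫⁻ x, f2 x ∂μ) ≤ (∫⁻ x, f3 x ∂μ) * (∫⁻ x, f4 x ∂μ) := by
  have key : ∀ x y, f1 x * f2 y + f1 y * f2 x ≤ f3 x * f4 y + f3 y * f4 x := by
    have aux : ∀ x y, x ≤ y → f1 x * f2 y + f1 y * f2 x ≤ f3 x * f4 y + f3 y * f4 x := by
      intro x y hxy
      rw [add_comm (f3 x * f4 y)]
      apply alg
      · have := h x y
        rwa [sup_eq_right.2 hxy, inf_eq_left.2 hxy] at this
      · have := h y x
        rwa [sup_eq_left.2 hxy, inf_eq_right.2 hxy] at this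
      · have e1 := h x x
        have e2 := h y y
        simp only [sup_idem, inf_idem] at e1 e2
        calc f1 x * f2 y * (f1 y * f2 x) = (f1 x * f2 x) * (f1 y * f2 y) := by ring
          _ ≤ (f3 x * f4 x) * (f3 y * f4 y) := mul_le_mul' e1 e2
          _ = _ := by ring
    intro x y
    rcases le_total x y with hxy | hxy
    · exact aux x y hxy
    · rw [add_comm, add_comm (f3 x * f4 y)]
      exact aux y x hxy
  have e1 : ∀ (u v : ℝ → ℝ≥0∞), Measurable u → Measurable v →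
      ∫⁻ x, ∫⁻ y, (u x * v y + u y * v x) ∂μ ∂μ =
        2 * ((∫⁻ x, u x ∂μ) * (∫⁻ x, v x ∂μ)) := by
    intro u v hu hv
    have i1 : ∀ x, ∫⁻ y, (u x * v y + u y * v x) ∂μ =
        u x * (∫⁻ y, v y ∂μ) + (∫⁻ y, u y ∂μ) * v x := by
      intro x
      rw [lintegral_add_left (hv.const_mul _), lintegral_const_mul _ hv, lintegral_mul_const _ hu]
    simp_rw [i1]
    rw [lintegral_add_left (hu.mul_const _), lintegral_mul_const _ hu, lintegral_const_mul _ hv]
    ring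
  have e2 := e1 f1 f2 h1 h2
  have e3 := e1 f3 f4 h3 h4
  have e4 : ∫⁻ x, ∫⁻ y, (f1 x * f2 y + f1 y * f2 x) ∂μ ∂μ ≤
      ∫⁻ x, ∫⁻ y, (f3 x * f4 y + f3 y * f4 x) ∂μ ∂μ :=
    lintegral_mono fun x => lintegral_mono fun y => key x y
  rw [e2, e3] at e4
  exact (ENNReal.mul_le_mul_iff_right (by norm_num) (by norm_num)).1 e4

lemma cons_sup {n : ℕ} (a b : ℝ) (x y : Fin n → ℝ) :
    (Fin.cons a x : Fin (n + 1) → ℝ) ⊔ Fin.cons b y = Fin.cons (a ⊔ b) (x ⊔ y) := by
  funext i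
  refine Fin.cases ?_ (fun j => ?_) i
  · simp
  · simp

lemma cons_inf {n : ℕ} (a b : ℝ) (x y : Fin n → ℝ) :
    (Fin.cons a x : Fin (n + 1) → ℝ) ⊓ Fin.cons b y = Fin.cons (a ⊓ b) (x ⊓ y) := by
  funext i
  refine Fin.cases ?_ (fun j => ?_) i
  · simp
  · simp

lemma lint_succ {n : ℕ} (f : (Fin (n + 1) → ℝ) → ℝ≥0∞) (hf : Measurable f) :
    ∫⁻ x, f x = ∫⁻ a : ℝ, ∫⁻ x : Fin n → ℝ, f (Fin.cons a x) := by
  have hmp := (volume_preserving_piFinSuccAbove (fun _ : Fin (n + 1) => ℝ) 0).symm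
  rw [← hmp.lintegral_comp hf, Measure.volume_eq_prod,
    lintegral_prod (fun a => f ((MeasurableEquiv.piFinSuccAbove (fun _ => ℝ) 0).symm a))
      (hf.comp hmp.measurable).aemeasurable]
  refine lintegral_congr fun a => lintegral_congr fun x => ?_
  have : (MeasurableEquiv.piFinSuccAbove (fun _ : Fin (n + 1) => ℝ) 0).symm (a, x) = Fin.cons a x := by
    rw [MeasurableEquiv.symm_apply_eq]
    simp [MeasurableEquiv.piFinSuccAbove]
  rw [this]

lemma cons_meas {n : ℕ} : Measurable fun p : ℝ × (Fin n → ℝ) => (Fin.cons p.1 p.2 : Fin (n + 1) → ℝ) := by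
  refine measurable_pi_iff.2 fun i => ?_
  refine Fin.cases ?_ (fun j => ?_) i
  · simpa using measurable_fst
  · simp only [Fin.cons_succ]
    exact (measurable_pi_apply j).comp measurable_snd

/-- the four functions theorem on `ℝⁿ` -/
theorem four (n : ℕ) : ∀ (f1 f2 f3 f4 : (Fin n → ℝ) → ℝ≥0∞), Measurable f1 → Measurable f2 →
    Measurable f3 → Measurable f4 → (∀ x y, f1 x * f2 y ≤ f3 (x ⊔ y) * f4 (x ⊓ y)) →
    (∫⁻ x, f1 x) * (∫⁻ x, f2 x) ≤ (∫⁻ x, f3 x) * (∫⁻ x, f4 x) := by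
  induction n with
  | zero =>
    intro f1 f2 f3 f4 _ _ _ _ h
    have e : ∀ f : (Fin 0 → ℝ) → ℝ≥0∞, ∫⁻ x, f x = f default := by
      intro f
      rw [lintegral_unique]
      have : (volume : Measure (Fin 0 → ℝ)) univ = 1 := by
        rw [volume_pi, Measure.pi_univ]; simp
      rw [this, mul_one]
      exact congrArg f (Subsingleton.elim _ _)
    rw [e, e, e, e]
    have := h default default
    simpa using this
  | succ n ih =>
    intro f1 f2 f3 f4 h1 h2 h3 h4 h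
    rw [lint_succ f1 h1, lint_succ f2 h2, lint_succ f3 h3, lint_succ f4 h4]
    have hm : ∀ f : (Fin (n + 1) → ℝ) → ℝ≥0∞, Measurable f →
        Measurable fun a : ℝ => ∫⁻ x : Fin n → ℝ, f (Fin.cons a x) := fun f hf =>
      (hf.comp cons_meas).lintegral_prod_right'
    have hm2 : ∀ (f : (Fin (n + 1) → ℝ) → ℝ≥0∞) (a : ℝ), Measurable f →
        Measurable fun x : Fin n → ℝ => f (Fin.cons a x) := fun f a hf =>
      hf.comp (cons_meas.comp (measurable_const.prodMk measurable_id))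
    apply four1 volume _ _ _ _ (hm f1 h1) (hm f2 h2) (hm f3 h3) (hm f4 h4)
    intro a b
    apply ih _ _ _ _ (hm2 f1 a h1) (hm2 f2 b h2) (hm2 f3 _ h3) (hm2 f4 _ h4)
    intro x y
    have := h (Fin.cons a x) (Fin.cons b y)
    rwa [cons_sup, cons_inf] at this

end Pool.Agent.H7.Lag
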