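import Pool.Agent.H7.Lag.Basic

set_option autoImplicit false

open MeasureTheory Set Filter Topology
open scoped ENNReal

namespace Pool.Agent.H7.Lag

section

variable {n : ℕ}

/-- `φ = ∑ 1/(x_j+t)` -/
noncomputable def ph (t : ℝ) (x : Fin n → ℝ) : ℝ := ∑ j, 1 / (x j + t)

/-- `∏ (x_j+t)^s` -/
noncomputable def pw (s t : ℝ) (x : Fin n → ℝ) : ℝ := ∏ j, (x j + t) ^ s

lemma ph_meas (t : ℝ) : Measurable (ph t : (Fin n → ℝ) → ℝ) := by unfold ph; fun_prop
lemma pw_meas (s t : ℝ) : Measurable (pw s t : (Fin n → ℝ) → ℝ) := by unfold pw; fun_prop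

lemma pw_pos {s t : ℝ} (ht : 0 ≤ t) {x : Fin n → ℝ} (hx : x ∈ O n) : 0 < pw s t x :=
  Finset.prod_pos fun j _ => Real.rpow_pos_of_pos (by have := hx j; linarith) s

lemma ph_nonneg {t : ℝ} (ht : 0 ≤ t) {x : Fin n → ℝ} (hx : x ∈ O n) : 0 ≤ ph t x :=
  Finset.sum_nonneg fun j _ => by have := hx j; positivity

lemma ph_le {t : ℝ} (ht : 0 < t) {x : Fin n → ℝ} (hx : x ∈ O n) : ph t x ≤ n / t := by
  unfold ph
  calc ∑ j, 1 / (x j + t) ≤ ∑ _j : Fin n, 1 / t := Finset.sum_le_sum fun j _ => by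
        have := hx j
        exact one_div_le_one_div_of_le ht (by linarith)
    _ = n / t := by rw [Finset.sum_const, Finset.card_univ, Fintype.card_fin, nsmul_eq_mul]; ring

lemma pw_neg_le {t : ℝ} (ht : 0 ≤ t) {x : Fin n → ℝ} (hx : x ∈ O n) :
    pw (-(1 / 2)) t x ≤ ∏ j, ((1 + x j) ^ 2 * x j ^ (-(1 / 2) : ℝ)) := by
  unfold pw
  refine Finset.prod_le_prod (fun j _ => Real.rpow_nonneg (by have := hx j; linarith) _) fun j _ => ?_
  have h := hx j
  have h1 : (x j + t) ^ (-(1 / 2) : ℝ) ≤ x j ^ (-(1 / 2) : ℝ) :=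
    Real.rpow_le_rpow_of_nonpos h (by linarith) (by norm_num)
  have h2 : 0 ≤ x j ^ (-(1 / 2) : ℝ) := Real.rpow_nonneg h.le _
  have h3 : 1 ≤ (1 + x j) ^ 2 := by nlinarith
  nlinarith

lemma pw_half_le {t T : ℝ} (ht : 0 ≤ t) (htT : t ≤ T) {x : Fin n → ℝ} (hx : x ∈ O n) :
    pw (1 / 2) t x ≤ (1 + T) ^ n * ∏ j, ((1 + x j) ^ 2 * x j ^ (-(1 / 2) : ℝ)) := by
  have h0 : (1 + T) ^ n = ∏ _j : Fin n, (1 + T) := by simp
  rw [h0, ← Finset.prod_mul_distrib]
  unfold pw
  refine Finset.prod_le_prod (fun j _ => Real.rpow_nonneg (by have := hx j; linarith) _) fun j _ => ?_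
  have h : 0 < x j := hx j
  have hT : 0 ≤ T := ht.trans htT
  have e1 : (x j + t) ^ (1 / 2 : ℝ) ≤ (1 + T) * (1 + x j) := by
    have h5 : x j + t ≤ (1 + T) * (1 + x j) := by nlinarith
    have h6 : 1 ≤ (1 + T) * (1 + x j) := by nlinarith
    calc (x j + t) ^ (1 / 2 : ℝ) ≤ ((1 + T) * (1 + x j)) ^ (1 / 2 : ℝ) :=
          Real.rpow_le_rpow (by linarith) h5 (by norm_num)
      _ ≤ ((1 + T) * (1 + x j)) ^ (1 : ℝ) := Real.rpow_le_rpow_of_exponent_le h6 (by norm_num)
      _ = _ := Real.rpow_one _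
  have e2 : 1 ≤ (1 + x j) * x j ^ (-(1 / 2) : ℝ) := by
    have h7 : x j ^ (1 / 2 : ℝ) ≤ 1 + x j := by
      calc x j ^ (1 / 2 : ℝ) ≤ (1 + x j) ^ (1 / 2 : ℝ) :=
            Real.rpow_le_rpow h.le (by linarith) (by norm_num)
        _ ≤ (1 + x j) ^ (1 : ℝ) := Real.rpow_le_rpow_of_exponent_le (by linarith) (by norm_num)
        _ = _ := Real.rpow_one _
    have h8 : x j ^ (1 / 2 : ℝ) * x j ^ (-(1 / 2) : ℝ) = 1 := by
      rw [← Real.rpow_add h]; norm_num
    calc (1 : ℝ) = x j ^ (1 / 2 : ℝ) * x j ^ (-(1 / 2) : ℝ) := h8.symm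
      _ ≤ _ := mul_le_mul_of_nonneg_right h7 (Real.rpow_nonneg h.le _)
  have h9 : 0 ≤ (1 + T) * (1 + x j) := by positivity
  calc (x j + t) ^ (1 / 2 : ℝ) ≤ (1 + T) * (1 + x j) := e1
    _ ≤ (1 + T) * (1 + x j) * ((1 + x j) * x j ^ (-(1 / 2) : ℝ)) := by nlinarith
    _ = _ := by ring

/-- all integrands are integrable -/
lemma int_neg {t : ℝ} (ht : 0 ≤ t) : IntegrableOn (fun x : Fin n → ℝ => P n x * pw (-(1 / 2)) t x) (O n) :=
  integ_of_bound _ (pw_meas _ _) 1 fun x hx => by
    rw [abs_of_pos (pw_pos ht hx), one_mul]; exact pw_neg_le ht hx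

lemma int_half {t : ℝ} (ht : 0 ≤ t) : IntegrableOn (fun x : Fin n → ℝ => P n x * pw (1 / 2) t x) (O n) :=
  integ_of_bound _ (pw_meas _ _) ((1 + t) ^ n) fun x hx => by
    rw [abs_of_pos (pw_pos ht hx)]; exact pw_half_le ht le_rfl hx

lemma int_neg_ph {t : ℝ} (ht : 0 < t) :
    IntegrableOn (fun x : Fin n → ℝ => P n x * (ph t x * pw (-(1 / 2)) t x)) (O n) :=
  integ_of_bound _ ((ph_meas t).mul (pw_meas _ _)) (n / t) fun x hx => by
    have h1 := pw_pos (s := -(1 / 2)) ht.le hx
    have h2 := ph_nonneg ht.le hx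
    rw [abs_of_nonneg (mul_nonneg h2 h1.le)]
    exact mul_le_mul (ph_le ht hx) (pw_neg_le ht.le hx) h1.le (by positivity)

lemma int_half_ph {t : ℝ} (ht : 0 < t) :
    IntegrableOn (fun x : Fin n → ℝ => P n x * (ph t x * pw (1 / 2) t x)) (O n) :=
  integ_of_bound _ ((ph_meas t).mul (pw_meas _ _)) (n / t * (1 + t) ^ n) fun x hx => by
    have h1 := pw_pos (s := 1 / 2) ht.le hx
    have h2 := ph_nonneg ht.le hx
    rw [abs_of_nonneg (mul_nonneg h2 h1.le), mul_assoc]
    exact mul_le_mul (ph_le ht hx) (pw_half_le ht.le le_rfl hx) h1.le (by positivity)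

lemma int_neg_ph2 {t : ℝ} (ht : 0 < t) :
    IntegrableOn (fun x : Fin n → ℝ => P n x * (ph t x ^ 2 * pw (-(1 / 2)) t x)) (O n) :=
  integ_of_bound _ (((ph_meas t).pow_const 2).mul (pw_meas _ _)) ((n / t) ^ 2) fun x hx => by
    have h1 := pw_pos (s := -(1 / 2)) ht.le hx
    have h2 := ph_nonneg ht.le hx
    rw [abs_of_nonneg (mul_nonneg (by positivity) h1.le)]
    exact mul_le_mul (pow_le_pow_left₀ h2 (ph_le ht hx) 2) (pw_neg_le ht.le hx) h1.le (by positivity)

/-- derivative of the integrand -/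
lemma pw_deriv {s t : ℝ} (ht : 0 ≤ t) {x : Fin n → ℝ} (hx : x ∈ O n) :
    HasDerivAt (fun t => pw s t x) (s * (ph t x * pw s t x)) t := by
  have h1 : ∀ j, 0 < x j + t := fun j => by have := hx j; linarith
  have h2 : HasDerivAt (fun t => Real.exp (s * ∑ j, Real.log (x j + t)))
      (Real.exp (s * ∑ j, Real.log (x j + t)) * (s * ∑ j, 1 / (x j + t))) t := by
    apply HasDerivAt.exp
    apply HasDerivAt.const_mul
    apply HasDerivAt.fun_sum
    intro j _
    have : HasDerivAt (fun t => x j + t) 1 t := (hasDerivAt_id t).const_add _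
    exact this.log (h1 j).ne'
  have h3 : ∀ u, (∀ j, 0 < x j + u) → pw s u x = Real.exp (s * ∑ j, Real.log (x j + u)) := by
    intro u hu
    unfold pw
    rw [Finset.mul_sum, Real.exp_sum]
    refine Finset.prod_congr rfl fun j _ => ?_
    rw [Real.rpow_def_of_pos (hu j), mul_comm]
  have h4 : (fun u => pw s u x) =ᶠ[𝓝 t] fun u => Real.exp (s * ∑ j, Real.log (x j + u)) := by
    have : ∀ᶠ u in 𝓝 t, ∀ j, 0 < x j + u := by
      rw [eventually_all]
      intro j
      exact (continuous_const.add continuous_id).tendsto t |>.eventually (lt_mem_nhds (h1 j))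
    filter_upwards [this] with u hu using h3 u hu
  refine (h2.congr_of_eventuallyEq h4).congr_deriv ?_
  rw [h3 t h1]
  unfold ph
  ring

lemma F_deriv {t : ℝ} (ht : 0 < t) : HasDerivAt (F n)
    (-(1 / 2) * ∫ x in O n, P n x * (ph t x * pw (-(1 / 2)) t x)) t := by
  have hF : F n = fun t => ∫ x in O n, P n x * pw (-(1 / 2)) t x := by
    funext t; exact F_eq n t
  rw [hF, ← integral_const_mul]
  have hnb : Ioo (t / 2) (2 * t) ∈ 𝓝 t := Ioo_mem_nhds (by linarith) (by linarith)
  have hb : IntegrableOn (fun x : Fin n → ℝ => (1 / 2) * (n / (t / 2)) * (P n x * pw (-(1 / 2)) 0 x)) (O n) :=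
    (int_neg le_rfl).const_mul _
  refine (hasDerivAt_integral_of_dominated_loc_of_deriv_le (μ := volume.restrict (O n))
    (F := fun t x => P n x * pw (-(1 / 2)) t x)
    (F' := fun t x => -(1 / 2) * (P n x * (ph t x * pw (-(1 / 2)) t x)))
    (bound := fun x => (1 / 2) * (n / (t / 2)) * (P n x * pw (-(1 / 2)) 0 x))
    hnb ?_ (int_neg ht.le) ?_ ?_ hb ?_).2
  · exact Eventually.of_forall fun u => ((P_cont n).measurable.mul (pw_meas _ _)).aestronglyMeasurable
  · exact (((P_cont n).measurable.mul ((ph_meas t).mul (pw_meas _ _))).const_mul _).aestronglyMeasurable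
  · rw [ae_restrict_iff' (O_meas n)]
    refine Eventually.of_forall fun x hx u hu => ?_
    have hu0 : 0 < u := by have := hu.1; linarith
    have h1 := pw_pos (s := -(1 / 2)) hu0.le hx
    have h2 := ph_nonneg hu0.le hx
    have h3 := P_nonneg n x
    rw [norm_mul, Real.norm_of_nonneg (mul_nonneg h3 (mul_nonneg h2 h1.le))]
    have h4 : pw (-(1 / 2)) u x ≤ pw (-(1 / 2)) 0 x := by
      unfold pw
      refine Finset.prod_le_prod (fun j _ => Real.rpow_nonneg (by have := hx j; linarith) _) fun j _ => ?_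
      have := hx j
      exact Real.rpow_le_rpow_of_nonpos (by linarith) (by linarith) (by norm_num)
    have h5 : ph u x ≤ n / (t / 2) := by
      refine (ph_le hu0 hx).trans ?_
      exact div_le_div_of_nonneg_left (by positivity) (by linarith) hu.1.le
    have h6 : ph u x * pw (-(1 / 2)) u x ≤ n / (t / 2) * pw (-(1 / 2)) 0 x :=
      mul_le_mul h5 h4 h1.le (by positivity)
    calc ‖(-(1 / 2) : ℝ)‖ * (P n x * (ph u x * pw (-(1 / 2)) u x))
        = 1 / 2 * (P n x * (ph u x * pw (-(1 / 2)) u x)) := by norm_num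
      _ ≤ 1 / 2 * (P n x * (n / (t / 2) * pw (-(1 / 2)) 0 x)) := by
          refine mul_le_mul_of_nonneg_left (mul_le_mul_of_nonneg_left h6 h3) (by norm_num)
      _ = _ := by ring
  · rw [ae_restrict_iff' (O_meas n)]
    refine Eventually.of_forall fun x hx u hu => ?_
    have hu0 : 0 < u := by have := hu.1; linarith
    refine ((pw_deriv (s := -(1 / 2)) hu0.le hx).const_mul (P n x)).congr_deriv ?_
    ring

lemma G_deriv {t : ℝ} (ht : 0 < t) : HasDerivAt (G n)
    ((1 / 2) * ∫ x in O n, P n x * (ph t x * pw (1 / 2) t x)) t := by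
  have hF : G n = fun t => ∫ x in O n, P n x * pw (1 / 2) t x := by
    funext t; exact G_eq n t
  rw [hF, ← integral_const_mul]
  have hnb : Ioo (t / 2) (2 * t) ∈ 𝓝 t := Ioo_mem_nhds (by linarith) (by linarith)
  have hb : IntegrableOn (fun x : Fin n → ℝ => (1 / 2) * (n / (t / 2)) * (P n x * pw (1 / 2) (2 * t) x)) (O n) :=
    (int_half (by linarith)).const_mul _
  refine (hasDerivAt_integral_of_dominated_loc_of_deriv_le (μ := volume.restrict (O n))
    (F := fun t x => P n x * pw (1 / 2) t x)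
    (F' := fun t x => (1 / 2) * (P n x * (ph t x * pw (1 / 2) t x)))
    (bound := fun x => (1 / 2) * (n / (t / 2)) * (P n x * pw (1 / 2) (2 * t) x))
    hnb ?_ (int_half ht.le) ?_ ?_ hb ?_).2
  · exact Eventually.of_forall fun u => ((P_cont n).measurable.mul (pw_meas _ _)).aestronglyMeasurable
  · exact (((P_cont n).measurable.mul ((ph_meas t).mul (pw_meas _ _))).const_mul _).aestronglyMeasurable
  · rw [ae_restrict_iff' (O_meas n)]
    refine Eventually.of_forall fun x hx u hu => ?_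
    have hu0 : 0 < u := by have := hu.1; linarith
    have h1 := pw_pos (s := 1 / 2) hu0.le hx
    have h2 := ph_nonneg hu0.le hx
    have h3 := P_nonneg n x
    rw [norm_mul, Real.norm_of_nonneg (mul_nonneg h3 (mul_nonneg h2 h1.le))]
    have h4 : pw (1 / 2) u x ≤ pw (1 / 2) (2 * t) x := by
      unfold pw
      refine Finset.prod_le_prod (fun j _ => Real.rpow_nonneg (by have := hx j; linarith) _) fun j _ => ?_
      have := hx j
      have := hu.2
      exact Real.rpow_le_rpow (by linarith) (by linarith) (by norm_num)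
    have h5 : ph u x ≤ n / (t / 2) := by
      refine (ph_le hu0 hx).trans ?_
      exact div_le_div_of_nonneg_left (by positivity) (by linarith) hu.1.le
    have h6 : ph u x * pw (1 / 2) u x ≤ n / (t / 2) * pw (1 / 2) (2 * t) x :=
      mul_le_mul h5 h4 h1.le (by positivity)
    calc ‖(1 / 2 : ℝ)‖ * (P n x * (ph u x * pw (1 / 2) u x))
        = 1 / 2 * (P n x * (ph u x * pw (1 / 2) u x)) := by norm_num
      _ ≤ 1 / 2 * (P n x * (n / (t / 2) * pw (1 / 2) (2 * t) x)) := by
          refine mul_le_mul_of_nonneg_left (mul_le_mul_of_nonneg_left h6 h3) (by norm_num)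
      _ = _ := by ring
  · rw [ae_restrict_iff' (O_meas n)]
    refine Eventually.of_forall fun x hx u hu => ?_
    have hu0 : 0 < u := by have := hu.1; linarith
    refine ((pw_deriv (s := 1 / 2) hu0.le hx).const_mul (P n x)).congr_deriv ?_
    ring

lemma F_cont : ContinuousOn (F n) (Ici 0) := by
  have hF : F n = fun t => ∫ x in O n, P n x * pw (-(1 / 2)) t x := by
    funext t; exact F_eq n t
  rw [hF]
  intro t ht
  refine continuousWithinAt_of_dominated (bound := fun x => P n x * pw (-(1 / 2)) 0 x) ?_ ?_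
    (int_neg le_rfl) ?_
  · exact Eventually.of_forall fun u => ((P_cont n).measurable.mul (pw_meas _ _)).aestronglyMeasurable
  · filter_upwards [self_mem_nhdsWithin] with u hu
    rw [ae_restrict_iff' (O_meas n)]
    refine Eventually.of_forall fun x hx => ?_
    have hu0 : 0 ≤ u := hu
    rw [Real.norm_of_nonneg (mul_nonneg (P_nonneg n x) (pw_pos hu0 hx).le)]
    refine mul_le_mul_of_nonneg_left ?_ (P_nonneg n x)
    unfold pw
    refine Finset.prod_le_prod (fun j _ => Real.rpow_nonneg (by have := hx j; linarith) _) fun j _ => ?_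
    have := hx j
    exact Real.rpow_le_rpow_of_nonpos (by linarith) (by linarith) (by norm_num)
  · rw [ae_restrict_iff' (O_meas n)]
    refine Eventually.of_forall fun x hx => ?_
    exact ((pw_deriv (s := -(1 / 2)) ht hx).const_mul (P n x)).continuousAt.continuousWithinAt

lemma G_cont : ContinuousOn (G n) (Ici 0) := by
  have hF : G n = fun t => ∫ x in O n, P n x * pw (1 / 2) t x := by
    funext t; exact G_eq n t
  rw [hF]
  intro t ht
  have ht0 : 0 ≤ t := ht
  refine continuousWithinAt_of_dominated (bound := fun x => P n x * pw (1 / 2) (t + 1) x) ?_ ?_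
    (int_half (by linarith)) ?_
  · exact Eventually.of_forall fun u => ((P_cont n).measurable.mul (pw_meas _ _)).aestronglyMeasurable
  · have : ∀ᶠ u in 𝓝[Ici 0] t, u < t + 1 := mem_nhdsWithin_of_mem_nhds (gt_mem_nhds (by linarith))
    filter_upwards [self_mem_nhdsWithin, this] with u hu hu1
    rw [ae_restrict_iff' (O_meas n)]
    refine Eventually.of_forall fun x hx => ?_
    have hu0 : 0 ≤ u := hu
    rw [Real.norm_of_nonneg (mul_nonneg (P_nonneg n x) (pw_pos hu0 hx).le)]
    refine mul_le_mul_of_nonneg_left ?_ (P_nonneg n x)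
    unfold pw
    refine Finset.prod_le_prod (fun j _ => Real.rpow_nonneg (by have := hx j; linarith) _) fun j _ => ?_
    have := hx j
    exact Real.rpow_le_rpow (by linarith) (by linarith) (by norm_num)
  · rw [ae_restrict_iff' (O_meas n)]
    refine Eventually.of_forall fun x hx => ?_
    exact ((pw_deriv (s := 1 / 2) ht hx).const_mul (P n x)).continuousAt.continuousWithinAt

end

end Pool.Agent.H7.Lag
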