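import Pool.Agent.H7.Lag.Four

set_option autoImplicit false

open MeasureTheory Set
open scoped ENNReal

namespace Pool.Agent.H7.Lag

/-- a.e. point has distinct coordinates -/
lemma ae_injective (n : ℕ) : ∀ᵐ x : Fin n → ℝ, Function.Injective x := by
  have h : ∀ i j : Fin n, i ≠ j → ∀ᵐ x : Fin n → ℝ, x i ≠ x j := by
    intro i j hij
    let s : Submodule ℝ (Fin n → ℝ) :=
      LinearMap.ker ((LinearMap.proj i : (Fin n → ℝ) →ₗ[ℝ] ℝ) - LinearMap.proj j)
    have hs : s ≠ ⊤ := by
      intro htop
      have hmem : (Pi.single i (1 : ℝ) : Fin n → ℝ) ∈ s := by rw [htop]; trivial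
      simp only [s, LinearMap.mem_ker, LinearMap.sub_apply, LinearMap.proj_apply, Pi.single_eq_same,
        Pi.single_eq_of_ne hij.symm] at hmem
      norm_num at hmem
    have h0 := Measure.addHaar_submodule (volume : Measure (Fin n → ℝ)) s hs
    rw [ae_iff]
    refine measure_mono_null ?_ h0
    intro x hx
    simp only [ne_eq, not_not, mem_ofPred_eq] at hx
    simp [s, hx]
  have h2 : ∀ᵐ x : Fin n → ℝ, ∀ i j : Fin n, i ≠ j → x i ≠ x j := by
    rw [ae_all_iff]; intro i
    rw [ae_all_iff]; intro j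
    by_cases hij : i = j
    · simp [hij]
    · filter_upwards [h i j hij] with x hx _ using hx
  filter_upwards [h2] with x hx i j hij
  by_contra hne
  exact hx i j hne hij

lemma chamber_meas (n : ℕ) (σ : Equiv.Perm (Fin n)) :
    MeasurableSet {x : Fin n → ℝ | StrictMono (x ∘ σ)} := by
  have : {x : Fin n → ℝ | StrictMono (x ∘ σ)} = ⋂ i : Fin n, ⋂ j : Fin n, ⋂ _ : i < j,
      {x : Fin n → ℝ | x (σ i) < x (σ j)} := by
    ext x
    simp only [mem_ofPred_eq, mem_iInter]
    exact ⟨fun h i j hij => h hij, fun h i j hij => h i j hij⟩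
  rw [this]
  refine MeasurableSet.iInter fun i => MeasurableSet.iInter fun j => MeasurableSet.iInter fun _ =>
    measurableSet_lt (measurable_pi_apply _) (measurable_pi_apply _)

/-- symmetric functions: the integral is `n!` times the integral over the chamber -/
theorem lint_symm (n : ℕ) (h : (Fin n → ℝ) → ℝ≥0∞) (hm : Measurable h)
    (hs : ∀ (σ : Equiv.Perm (Fin n)) x, h (x ∘ σ) = h x) :
    ∫⁻ x, h x = (n.factorial : ℝ≥0∞) * ∫⁻ x in {x : Fin n → ℝ | StrictMono x}, h x := by
  have hC : ∀ σ : Equiv.Perm (Fin n), ∫⁻ x in {x : Fin n → ℝ | StrictMono (x ∘ σ)}, h x =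
      ∫⁻ x in {x : Fin n → ℝ | StrictMono x}, h x := by
    intro σ
    have hmp := volume_measurePreserving_piCongrLeft (fun _ : Fin n => ℝ) σ.symm
    have hcoe : ∀ x : Fin n → ℝ, MeasurableEquiv.piCongrLeft (fun _ : Fin n => ℝ) σ.symm x = x ∘ σ := by
      intro x
      funext i
      have := MeasurableEquiv.piCongrLeft_apply_apply (β := fun _ : Fin n => ℝ) σ.symm x (σ i)
      simpa using this
    rw [← lintegral_indicator (chamber_meas n σ)]
    have hS : MeasurableSet {x : Fin n → ℝ | StrictMono x} := chamber_meas n 1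
    rw [← lintegral_indicator hS]
    rw [← hmp.lintegral_comp (hm.indicator hS)]
    refine lintegral_congr fun x => ?_
    rw [hcoe x]
    by_cases hx : StrictMono (x ∘ σ)
    · rw [indicator_of_mem (by exact hx), indicator_of_mem (by exact hx), hs]
    · rw [indicator_of_notMem (by exact hx), indicator_of_notMem (by exact hx)]
  have hdisj : Pairwise (Function.onFun Disjoint
      fun σ : Equiv.Perm (Fin n) => {x : Fin n → ℝ | StrictMono (x ∘ σ)}) := by
    intro σ τ hst
    rw [Function.onFun, Set.disjoint_left]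
    intro x hx hx'
    simp only [mem_ofPred_eq] at hx hx'
    apply hst
    have h1 := Tuple.unique_monotone (f := x) hx.monotone hx'.monotone
    have hinj : Function.Injective x := by
      have := hx.injective
      exact (Function.Injective.of_comp_iff' x σ.bijective).1 this
    ext i
    have := congrFun h1 i
    simp only [Function.comp] at this
    rw [hinj this]
  have hcover : (⋃ σ : Equiv.Perm (Fin n), {x : Fin n → ℝ | StrictMono (x ∘ σ)}) =ᵐ[volume] univ := by
    rw [Filter.eventuallyEq_univ]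
    filter_upwards [ae_injective n] with x hx
    rw [mem_iUnion]
    refine ⟨Tuple.sort x, ?_⟩
    exact (Tuple.monotone_sort x).strictMono_of_injective (hx.comp (Tuple.sort x).injective)
  calc ∫⁻ x, h x = ∫⁻ x in univ, h x := by rw [Measure.restrict_univ]
    _ = ∫⁻ x in ⋃ σ : Equiv.Perm (Fin n), {x : Fin n → ℝ | StrictMono (x ∘ σ)}, h x := by
        rw [setLIntegral_congr hcover]
    _ = ∑' σ : Equiv.Perm (Fin n), ∫⁻ x in {x : Fin n → ℝ | StrictMono (x ∘ σ)}, h x :=
        lintegral_iUnion (fun σ => chamber_meas n σ) hdisj _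
    _ = ∑ σ : Equiv.Perm (Fin n), ∫⁻ x in {x : Fin n → ℝ | StrictMono (x ∘ σ)}, h x := tsum_fintype _
    _ = ∑ σ : Equiv.Perm (Fin n), ∫⁻ x in {x : Fin n → ℝ | StrictMono x}, h x :=
        Finset.sum_congr rfl fun σ _ => hC σ
    _ = _ := by
        rw [Finset.sum_const, Finset.card_univ, Fintype.card_perm, Fintype.card_fin, nsmul_eq_mul]

end Pool.Agent.H7.Lag
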